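import Pool.Agent.H91.EL.Targets

/-!
End lemma (MP_ee74d2_an, d = 3): the row PST, many planks through the points joined to `q`.
Page H91_EL.md.
-/

set_option autoImplicit false

namespace Pool.Agent.H36.EL

open Pool.Agent.H83.G Pool.Agent.H91.EL
open scoped RealInnerProductSpace

open scoped Classical in
private theorem low {ι : Type} {ρ D K r : ℝ} {X : Finset (Z 2)} {P : Finset ι} {η : ι → E 2}
    {I : Z 2 → ι → Prop} (h : Conf ρ D K X P η I) (hr : K⁻¹ ≤ r) (hD2 : 2 * (D ^ 2 * r) ≤ 1)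
    {x : Z 2} (hx : x ∈ X) (η₀ : E 2) (F : Finset ι) (hF : ∀ p ∈ P, I x p → p ∈ F) :
    ρ ≤ 2 * D * ((F.filter fun p => I x p ∧ r ≤ ‖η p - η₀‖).card : ℝ) := by
  have hD0 : 0 < D := lt_of_lt_of_le one_pos h.one_le_D
  have hρ0 : 0 < ρ := hD0.trans_le (h.D_le_K.trans h.K_le)
  have h1 : PZ P I x ⊆ (F.filter fun p => I x p ∧ r ≤ ‖η p - η₀‖) ∪ PC P I η x η₀ r := by
    intro p hp
    unfold PZ at hp
    obtain ⟨hp1, hp2⟩ := Finset.mem_filter.1 hp
    rw [Finset.mem_union]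
    by_cases hc : r ≤ ‖η p - η₀‖
    · exact Or.inl (Finset.mem_filter.2 ⟨hF p hp1 hp2, hp2, hc⟩)
    · refine Or.inr ?_
      unfold PC
      exact Finset.mem_filter.2 ⟨hp1, hp2, (not_le.1 hc).le⟩
  have h2 : ((PZ P I x).card : ℝ) ≤
      ((F.filter fun p => I x p ∧ r ≤ ‖η p - η₀‖).card : ℝ) + ((PC P I η x η₀ r).card : ℝ) := by
    exact_mod_cast (Finset.card_le_card h1).trans (Finset.card_union_le _ _)
  have h3 := h.h2 x hx
  have h4 := h.h4 x hx η₀ r hr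
  set A : ℝ := ((F.filter fun p => I x p ∧ r ≤ ‖η p - η₀‖).card : ℝ) with hA
  have h5 : ρ ≤ D * (A + D * r * ρ) :=
    h3.trans (mul_le_mul_of_nonneg_left (by linarith) hD0.le)
  have h6 : D * (A + D * r * ρ) = D * A + D ^ 2 * r * ρ := by ring
  have h7 : 2 * (D ^ 2 * r) * ρ ≤ 1 * ρ := mul_le_mul_of_nonneg_right hD2 hρ0.le
  have h8 : 2 * D * A = 2 * (D * A) := by ring
  rw [h8]
  rw [h6] at h5
  linarith

theorem pf_PST (hMUL : T_MUL) : T_PST := by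
  classical
  obtain ⟨C, hC, H⟩ := hMUL
  refine ⟨2 * C, by linarith, ?_⟩
  intro ι ρ D K r X P η I hconf hKr hC1 hC2 q hq Y hYX hY
  have hD1 := hconf.one_le_D
  have hD0 : 0 < D := lt_of_lt_of_le one_pos hD1
  have hK0 : 0 < K := hD0.trans_le hconf.D_le_K
  have hρ0 : 0 < ρ := hK0.trans_le hconf.K_le
  have hr0 : 0 < r := (inv_pos.2 hK0).trans_le hKr
  have hD4 : 1 ≤ D ^ 4 := one_le_pow₀ hD1
  have hD24 : D ^ 2 ≤ D ^ 4 := pow_le_pow_right₀ hD1 (by norm_num)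
  have hr1 : r ≤ 1 := by
    have h1 : 1 ≤ 2 * C * D ^ 4 := by nlinarith
    calc r = 1 * r := (one_mul r).symm
      _ ≤ 2 * C * D ^ 4 * r := mul_le_mul_of_nonneg_right h1 hr0.le
      _ ≤ 1 := hC1
  have hD2 : 2 * (D ^ 2 * r) ≤ 1 := by
    calc 2 * (D ^ 2 * r) ≤ 2 * (D ^ 4 * r) :=
          mul_le_mul_of_nonneg_left (mul_le_mul_of_nonneg_right hD24 hr0.le) (by norm_num)
      _ = 2 * 1 * (D ^ 4 * r) := by ring
      _ ≤ 2 * C * (D ^ 4 * r) :=
          mul_le_mul_of_nonneg_right (by linarith) (by positivity)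
      _ = 2 * C * D ^ 4 * r := by ring
      _ ≤ 1 := hC1
  have hC2' : C * D ≤ r ^ 4 * ρ := by
    refine le_trans ?_ hC2
    refine mul_le_mul_of_nonneg_right (by linarith) hD0.le
  rcases Y.eq_empty_or_nonempty with rfl | ⟨x0, hx0⟩
  · simp only [Finset.card_empty, Nat.cast_zero, zero_mul]
    positivity
  have : Nonempty ι := ⟨(hY x0 hx0).choose⟩
  choose! p hpP hIx hIq hw using hY
  set F : Finset ι := P.filter fun p => ∃ x ∈ Y, I x p with hF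
  -- double counting
  have hdc : ∑ x ∈ Y, (F.filter fun p'' => I x p'' ∧ r ≤ ‖η p'' - η (p x)‖).card =
      ∑ p'' ∈ F, (Y.filter fun x => I x p'' ∧ r ≤ ‖η p'' - η (p x)‖).card :=
    Finset.sum_card_bipartiteAbove_eq_sum_card_bipartiteBelow _
  have hlow : (Y.card : ℝ) * ρ ≤ 2 * D *
      ∑ x ∈ Y, ((F.filter fun p'' => I x p'' ∧ r ≤ ‖η p'' - η (p x)‖).card : ℝ) := by
    rw [Finset.mul_sum]
    calc (Y.card : ℝ) * ρ = ∑ x ∈ Y, ρ := by rw [Finset.sum_const, nsmul_eq_mul]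
      _ ≤ _ := by
        refine Finset.sum_le_sum fun x hx => ?_
        refine low hconf hKr hD2 (hYX hx) (η (p x)) F ?_
        intro p'' h1 h2
        exact Finset.mem_filter.2 ⟨h1, x, hx, h2⟩
  have hup : ∀ p'' ∈ F, ((Y.filter fun x => I x p'' ∧ r ≤ ‖η p'' - η (p x)‖).card : ℝ) ≤
      C * D ^ 7 * ρ ^ 2 / r ^ 12 := by
    intro p'' hp''
    set S := Y.filter fun x => I x p'' ∧ r ≤ ‖η p'' - η (p x)‖ with hS
    rcases S.eq_empty_or_nonempty with hE | ⟨a, ha⟩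
    · rw [hE, Finset.card_empty, Nat.cast_zero]
      positivity
    · have hinj : Function.Injective fun x : Z 2 => (x, p x) := by
        intro x y hxy
        exact congrArg Prod.fst hxy
      have hcard : (S.image fun x => (x, p x)).card = S.card :=
        Finset.card_image_of_injective S hinj
      rw [← hcard]
      refine H ι ρ D K r X P η I hconf hr0 hr1 hC2' a p'' q _ ?_
      intro t ht
      obtain ⟨x, hx, rfl⟩ := Finset.mem_image.1 ht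
      obtain ⟨hx1, hx2, hx3⟩ := Finset.mem_filter.1 hx
      obtain ⟨ha1, ha2, ha3⟩ := Finset.mem_filter.1 ha
      exact ⟨hYX ha1, (Finset.mem_filter.1 hp'').1, hYX hx1, hpP x hx1, hq, ha2, hx2,
        hIx x hx1, hIq x hx1, hw x hx1, hx3⟩
  have hsum : ∑ x ∈ Y, ((F.filter fun p'' => I x p'' ∧ r ≤ ‖η p'' - η (p x)‖).card : ℝ) ≤
      (F.card : ℝ) * (C * D ^ 7 * ρ ^ 2 / r ^ 12) := by
    have h1 : ∑ x ∈ Y, ((F.filter fun p'' => I x p'' ∧ r ≤ ‖η p'' - η (p x)‖).card : ℝ) =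
        ∑ p'' ∈ F, ((Y.filter fun x => I x p'' ∧ r ≤ ‖η p'' - η (p x)‖).card : ℝ) := by
      exact_mod_cast hdc
    rw [h1]
    calc _ ≤ ∑ p'' ∈ F, (C * D ^ 7 * ρ ^ 2 / r ^ 12) := Finset.sum_le_sum hup
      _ = _ := by rw [Finset.sum_const, nsmul_eq_mul]
  have hfin : (Y.card : ℝ) * ρ ≤ 2 * D * ((F.card : ℝ) * (C * D ^ 7 * ρ ^ 2 / r ^ 12)) :=
    hlow.trans (mul_le_mul_of_nonneg_left hsum (by positivity))
  have h9 : 2 * D * ((F.card : ℝ) * (C * D ^ 7 * ρ ^ 2 / r ^ 12)) * r ^ 12 =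
      (2 * C * D ^ 8 * ρ * (F.card : ℝ)) * ρ := by
    field_simp
  have h10 : ((Y.card : ℝ) * r ^ 12) * ρ ≤ (2 * C * D ^ 8 * ρ * (F.card : ℝ)) * ρ := by
    rw [← h9]
    calc ((Y.card : ℝ) * r ^ 12) * ρ = ((Y.card : ℝ) * ρ) * r ^ 12 := by ring
      _ ≤ _ := mul_le_mul_of_nonneg_right hfin (by positivity)
  exact le_of_mul_le_mul_right h10 hρ0

end Pool.Agent.H36.EL
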