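import Pool.Agent.H91.EL.Targets

/-!
End lemma (MP_ee74d2_an, d = 3): the row SPL, the values of the sphere function on the planks
through `x`.  Page H91_EL.md.
-/

set_option autoImplicit false

namespace Pool.Agent.H36.EL

open Pool.Agent.H83.G Pool.Agent.H91.EL
open scoped RealInnerProductSpace

private theorem Sg_diff (lam : ℝ) (n a x z : Z 2) :
    Sg lam n a z - Sg lam n a x = qB (gr lam n a x) (z - x) + lam * qQ (z - x) := by
  have h : z - a = (x - a) + (z - x) := by abel
  unfold Sg gr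
  rw [h, qQ_add, qB_add_right, qB_add_left, qB_smul_left, qB_smul_left]
  ring

private theorem gr_diff (lam : ℝ) (n a x z u : Z 2) :
    qB (gr lam n a z) u = qB (gr lam n a x) u + 2 * lam * qB (z - x) u := by
  have h : z - a = (x - a) + (z - x) := by abel
  unfold gr
  rw [h, qB_add_left, qB_add_left, qB_smul_left, qB_smul_left, qB_smul_left, qB_add_left]
  ring

theorem pf_SPL : T_SPL := by
  refine ⟨208, by norm_num, ?_⟩
  intro ρ D r ε lam a x z n η hρ hD hDρ hr hr1 ha hx hz hn hη hlam hL hg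
  have hρ0 : 0 < ρ := lt_of_lt_of_le one_pos hρ
  have hD0 : 0 < D := lt_of_lt_of_le one_pos hD
  have hε : 0 ≤ ε := (abs_nonneg _).trans hg
  obtain ⟨e, he, -, -, he2, he3⟩ := dec hρ hD hη hL
  set w : ℝ := z.2.2 - x.2.2 with hw
  have hwb : |w| ≤ 2 * ρ ^ 2 := by
    have h1 := abs_le.1 ((norm_w_le z).trans hz)
    have h2 := abs_le.1 ((norm_w_le x).trans hx)
    rw [abs_le]
    constructor <;> linarith [h1.1, h1.2, h2.1, h2.2]
  have hlam2 : |lam| * ρ ^ 2 ≤ 1 / r := by
    calc |lam| * ρ ^ 2 ≤ 1 / (r * ρ ^ 2) * ρ ^ 2 :=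
          mul_le_mul_of_nonneg_right hlam (by positivity)
      _ = 1 / r := by field_simp
  have hlam0 := abs_nonneg lam
  constructor
  · have hgr : ‖gr lam n a x‖ ≤ 6 / r := by
      unfold gr
      have h1 : ‖x - a‖ ≤ 2 * ρ ^ 2 := (norm_sub_le _ _).trans (by linarith)
      have h2 : ‖(2 * lam) • (x - a)‖ ≤ 4 / r := by
        rw [norm_smul, Real.norm_eq_abs, abs_mul, abs_two]
        calc 2 * |lam| * ‖x - a‖ ≤ 2 * |lam| * (2 * ρ ^ 2) :=
              mul_le_mul_of_nonneg_left h1 (by positivity)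
          _ = 4 * (|lam| * ρ ^ 2) := by ring
          _ ≤ 4 * (1 / r) := mul_le_mul_of_nonneg_left hlam2 (by norm_num)
          _ = 4 / r := by ring
      have h3 : ‖(2 : ℝ) • n‖ ≤ 2 / r := by
        rw [norm_smul, hn, Real.norm_eq_abs, abs_two, mul_one, le_div_iff₀ hr]
        linarith
      calc ‖(2 * lam) • (x - a) + (2 : ℝ) • n‖ ≤ 4 / r + 2 / r :=
            (norm_add_le _ _).trans (add_le_add h2 h3)
        _ = 6 / r := by ring
    have hA : |qB (gr lam n a x) (z - x)| ≤ 2 * (ε * ρ ^ 2) + 120 * (D * ρ / r) := by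
      rw [he, qB_add_right, qB_smul_right]
      refine (abs_add_le _ _).trans (add_le_add ?_ ?_)
      · rw [abs_mul]
        calc |w| * |qB (gr lam n a x) (ll η)| ≤ (2 * ρ ^ 2) * ε :=
              mul_le_mul hwb hg (abs_nonneg _) (by positivity)
          _ = 2 * (ε * ρ ^ 2) := by ring
      · calc |qB (gr lam n a x) e| ≤ 5 * (‖gr lam n a x‖ * ‖e‖) := abs_qB_le _ _
          _ ≤ 5 * ((6 / r) * (4 * (D * ρ))) := by
              refine mul_le_mul_of_nonneg_left ?_ (by norm_num)
              exact mul_le_mul hgr he3 (norm_nonneg _) (by positivity)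
          _ = 120 * (D * ρ / r) := by ring
    have hQ : |qQ (z - x)| ≤ 88 * (D ^ 2 * ρ ^ 2) := by
      have h1 : qQ (z - x) = 2 * w * qB (ll η) e + qB e e := by
        rw [he, qQ_add, qQ_smul, qQ_ll, qB_smul_left]
        unfold qQ
        ring
      rw [h1]
      have h2 : |2 * w * qB (ll η) e| ≤ 8 * (D ^ 2 * ρ ^ 2) := by
        rw [abs_mul, abs_mul, abs_two]
        calc 2 * |w| * |qB (ll η) e| ≤ 2 * (2 * ρ ^ 2) * (2 * D) :=
              mul_le_mul (by linarith) he2 (abs_nonneg _) (by positivity)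
          _ = 8 * ρ ^ 2 * D := by ring
          _ ≤ 8 * ρ ^ 2 * D ^ 2 := by
              refine mul_le_mul_of_nonneg_left ?_ (by positivity)
              nlinarith
          _ = 8 * (D ^ 2 * ρ ^ 2) := by ring
      have h3 : |qB e e| ≤ 80 * (D ^ 2 * ρ ^ 2) := by
        calc |qB e e| ≤ 5 * (‖e‖ * ‖e‖) := abs_qB_le _ _
          _ ≤ 5 * ((4 * (D * ρ)) * (4 * (D * ρ))) := by
              refine mul_le_mul_of_nonneg_left ?_ (by norm_num)
              exact mul_le_mul he3 he3 (norm_nonneg _) (by positivity)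
          _ = 80 * (D ^ 2 * ρ ^ 2) := by ring
      calc |2 * w * qB (ll η) e + qB e e| ≤ 8 * (D ^ 2 * ρ ^ 2) + 80 * (D ^ 2 * ρ ^ 2) :=
            (abs_add_le _ _).trans (add_le_add h2 h3)
        _ = 88 * (D ^ 2 * ρ ^ 2) := by ring
    have hB : |lam * qQ (z - x)| ≤ 88 * (D * ρ / r) := by
      rw [abs_mul]
      calc |lam| * |qQ (z - x)| ≤ |lam| * (88 * (D ^ 2 * ρ ^ 2)) :=
            mul_le_mul_of_nonneg_left hQ hlam0
        _ = 88 * D ^ 2 * (|lam| * ρ ^ 2) := by ring
        _ ≤ 88 * D ^ 2 * (1 / r) := mul_le_mul_of_nonneg_left hlam2 (by positivity)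
        _ ≤ 88 * (D * ρ) * (1 / r) := by
            refine mul_le_mul_of_nonneg_right ?_ (by positivity)
            have : D ^ 2 ≤ D * ρ := by rw [sq]; exact mul_le_mul_of_nonneg_left hDρ hD0.le
            linarith
        _ = 88 * (D * ρ / r) := by ring
    rw [Sg_diff]
    have hp : 0 ≤ ε * ρ ^ 2 := by positivity
    calc |qB (gr lam n a x) (z - x) + lam * qQ (z - x)|
        ≤ (2 * (ε * ρ ^ 2) + 120 * (D * ρ / r)) + 88 * (D * ρ / r) :=
          (abs_add_le _ _).trans (add_le_add hA hB)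
      _ ≤ 208 * (ε * ρ ^ 2 + D * ρ / r) := by linarith
  · rw [gr_diff lam n a x z]
    have h1 : qB (z - x) (ll η) = qB (ll η) e := by
      rw [he, qB_add_left, qB_smul_left, qB_comm e]
      have := qQ_ll η
      unfold qQ at this
      rw [this]; ring
    rw [h1]
    refine (abs_add_le _ _).trans (add_le_add hg ?_)
    rw [abs_mul, abs_mul, abs_two]
    calc 2 * |lam| * |qB (ll η) e| ≤ 2 * (1 / (r * ρ ^ 2)) * (2 * D) :=
          mul_le_mul (by linarith) he2 (abs_nonneg _) (by positivity)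
      _ = 4 * (D / (r * ρ ^ 2)) := by ring
      _ ≤ 208 * (D / (r * ρ ^ 2)) := by
          refine mul_le_mul_of_nonneg_right (by norm_num) (by positivity)
      _ = 208 * D / (r * ρ ^ 2) := by ring

end Pool.Agent.H36.EL
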